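import Pool.Agent.Helper67.Cube8.Defs
import Pool.Agent.Helper63.Cube7.DetE

/-!
# The exterior facets of the simplices `sv c v`
-/

set_option autoImplicit false

namespace Helper63.Cube8

open Helper67.Cube Helper67.BS Helper67.Cube18 Helper67.Cube8 Helper63.Cube7
open Helper67.Cube6 (vc)

/-! ### Bits -/

lemma bt_le (u j : ℕ) : bt u j ≤ 1 := by
  have : bt u j = (u >>> j) % 2 := rfl
  omega

lemma bt_cases (u j : ℕ) : bt u j = 0 ∨ bt u j = 1 := by
  have := bt_le u j
  omega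

lemma bt_testBit (u j : ℕ) : bt u j = (u.testBit j).toNat := by
  have h : bt u j = (u >>> j) % 2 := rfl
  rw [h, Nat.testBit_eq_decide_div_mod_eq, Nat.shiftRight_eq_div_pow]
  rcases Nat.mod_two_eq_zero_or_one (u / 2 ^ j) with h | h <;> rw [h] <;> rfl

lemma testBit_del (u j t : ℕ) : (del j u).testBit t =
    if t < j then u.testBit t else u.testBit (t + 1) := by
  have h : del j u = 2 ^ j * (u / 2 ^ (j+1)) + u % 2 ^ j := by
    show u % (1 <<< j) + (u >>> (j+1)) <<< j = _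
    rw [Nat.shiftLeft_eq, Nat.shiftLeft_eq, Nat.shiftRight_eq_div_pow, one_mul]
    ring
  rw [h, Nat.testBit_two_pow_mul_add _ (Nat.mod_lt _ (by positivity))]
  split_ifs with h1
  · rw [Nat.testBit_mod_two_pow]
    simp [h1]
  · rw [Nat.testBit_div_two_pow]
    congr 1
    omega

lemma bt_double_zero (x : ℕ) : bt (2 * x) 0 = 0 := by
  show (2 * x) >>> 0 % 2 = 0
  rw [Nat.shiftRight_zero]
  omega

lemma bt_double_one (x : ℕ) : bt (2 * x + 1) 0 = 1 := by
  show (2 * x + 1) >>> 0 % 2 = 1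
  rw [Nat.shiftRight_zero]
  omega

lemma bt_double_succ (x t : ℕ) : bt (2 * x) (t+1) = bt x t := by
  rw [bt_testBit, bt_testBit, Nat.testBit_succ]
  congr 2
  omega

lemma bt_double_one_succ (x t : ℕ) : bt (2 * x + 1) (t+1) = bt x t := by
  rw [bt_testBit, bt_testBit, Nat.testBit_succ]
  congr 2
  omega

lemma bt_del (u : ℕ) (j : Fin 6) (t : Fin 5) :
    bt (del j u) t = bt u ((j.succAbove t : Fin 6) : ℕ) := by
  rw [bt_testBit, bt_testBit, testBit_del]
  congr 1
  by_cases h : (t : ℕ) < j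
  · rw [if_pos h, Fin.succAbove_of_castSucc_lt _ _ h, Fin.val_castSucc]
  · rw [if_neg h, Fin.succAbove_of_le_castSucc _ _ (by exact Nat.le_of_not_lt h), Fin.val_succ]

lemma del_lt {j u : ℕ} (hj : j < 6) (hu : u < 256) : del j u < 128 := by
  have h : del j u = u % 2 ^ j + 2 ^ j * (u / 2 ^ (j+1)) := by
    show u % (1 <<< j) + (u >>> (j+1)) <<< j = _
    rw [Nat.shiftLeft_eq, Nat.shiftLeft_eq, Nat.shiftRight_eq_div_pow, one_mul]
    ring
  rw [h]
  interval_cases j <;> omega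

/-! ### The simplex `sv c v` -/

lemma vc_lt' (c q : ℕ) : vc c q < 256 := Nat.mod_lt _ (by norm_num)

lemma sv_succ_zero (c v : ℕ) (q : Fin 7) : sv c v q.succ 0 = 0 := rfl

lemma sv_zero_zero (c v : ℕ) : sv c v 0 0 = 1 := rfl

lemma sv_succ_succ (c v : ℕ) (q : Fin 7) (j : Fin 6) : sv c v q.succ j.succ = (bt (vc c q) j : ℝ) :=
  rfl

lemma sv_zero_succ (c v : ℕ) (j : Fin 6) : sv c v 0 j.succ = (bt v j : ℝ) := rfl

lemma simp6_apply (c : ℕ) (q : Fin 7) (j : Fin 6) : simp6 c q j = (bt (vc c q) j : ℝ) := rfl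

lemma sv_bool (c v : ℕ) (i : Fin 8) (j : Fin 7) : sv c v i j = 0 ∨ sv c v i j = 1 := by
  refine Fin.cases ?_ (fun i => ?_) i
  · refine Fin.cases ?_ (fun j => ?_) j
    · exact Or.inr rfl
    · rw [sv_zero_succ]
      rcases bt_cases v j with h | h <;> rw [h] <;> simp
  · refine Fin.cases ?_ (fun j => ?_) j
    · exact Or.inl rfl
    · rw [sv_succ_succ]
      rcases bt_cases (vc c i) j with h | h <;> rw [h] <;> simp

lemma simp6_bool (c : ℕ) (i : Fin 7) (j : Fin 6) : simp6 c i j = 0 ∨ simp6 c i j = 1 := by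
  rw [simp6_apply]
  rcases bt_cases (vc c i) j with h | h <;> rw [h] <;> simp

lemma rem_zero (c v : ℕ) : rem (sv c v) 0 0 = simp6 c := by
  funext q j
  show sv c v ((0 : Fin 8).succAbove q) ((0 : Fin 7).succAbove j) = _
  rw [Fin.zero_succAbove, Fin.zero_succAbove]
  rfl

lemma ext_zero (c v : ℕ) : ∀ i' : Fin 8, i' ≠ 0 → sv c v i' 0 = 0 := by
  intro i' h
  obtain ⟨q, rfl⟩ := Fin.exists_succ_eq.2 h
  rfl

/-- (c) -/
theorem vdet_sv (c v : ℕ) : vdet (sv c v) = vdet (simp6 c) := by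
  rw [vdet_ext (sv c v) 0 0 0 (ext_zero c v), rem_zero, sv_zero_zero]
  norm_num

theorem aff_simp6 {c v : ℕ} (hA : AffineIndependent ℝ (sv c v)) :
    AffineIndependent ℝ (simp6 c) := by
  rw [← rem_zero c v]
  exact aff_rem hA (ext_zero c v)

/-- the vertex with an exceptional coordinate is unique -/
lemma ext_unique {m : ℕ} {w : Fin (m+2) → Fin (m+1) → ℝ} (hA : AffineIndependent ℝ w)
    {i i₂ : Fin (m+2)} {j : Fin (m+1)} {a : ℝ} (h : ∀ i', i' ≠ i → w i' j = a)
    (h₂ : ∀ i', i' ≠ i₂ → w i' j = a) : i₂ = i := by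
  obtain ⟨i', hi'⟩ := exists_ne_of_affineIndependent hA j a
  have h1 : i' = i := by
    by_contra hne
    exact hi' (h i' hne)
  have h2 : i' = i₂ := by
    by_contra hne
    exact hi' (h₂ i' hne)
  rw [← h1, ← h2]

lemma fphi_eq {m : ℕ} {Φ : (Fin (m+1) → Fin m → ℝ) → ℝ} {w : Fin (m+2) → Fin (m+1) → ℝ}
    (hA : AffineIndependent ℝ w) {i : Fin (m+2)} {j : Fin (m+1)} {a : ℝ}
    (h : ∀ i', i' ≠ i → w i' j = a) : fphi Φ w j a = Φ (rem w i j) := by
  have hE : ExtAt w j a := ⟨i, h⟩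
  unfold fphi
  rw [dif_pos hE, ext_unique hA h hE.choose_spec]

lemma fphi_zero {m : ℕ} {Φ : (Fin (m+1) → Fin m → ℝ) → ℝ} {w : Fin (m+2) → Fin (m+1) → ℝ}
    {j : Fin (m+1)} {a : ℝ} (h : ¬ ExtAt w j a) : fphi Φ w j a = 0 := by
  unfold fphi
  rw [dif_neg h]

/-! ### The columns -/

/-- the bit of vertex `i` in column `j` -/
def bi (c v j : ℕ) (i : Fin 8) : ℕ := Fin.cases (bt v j) (fun q : Fin 7 => bt (vc c q) j) i

lemma sv_bi (c v : ℕ) (i : Fin 8) (j : Fin 6) : sv c v i j.succ = (bi c v j i : ℝ) := by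
  refine Fin.cases ?_ (fun i => ?_) i <;> rfl

lemma s8_eq (c v j : ℕ) : s8 c v j = ∑ i : Fin 8, bi c v j i := by
  show bt (vc c 0) j + (bt (vc c 1) j + (bt (vc c 2) j + (bt (vc c 3) j + (bt (vc c 4) j +
    (bt (vc c 5) j + (bt (vc c 6) j + bt v j)))))) = _
  rw [Fin.sum_univ_succ]
  have h0 : bi c v j 0 = bt v j := rfl
  have h1 : ∀ q : Fin 7, bi c v j q.succ = bt (vc c q) j := fun q => rfl
  simp only [h0, h1]
  rw [Fin.sum_univ_seven]
  simp only [Fin.isValue, Fin.val_zero, Fin.val_one, Fin.val_two]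
  show _ = bt v j + (bt (vc c 0) j + bt (vc c 1) j + bt (vc c 2) j + bt (vc c 3) j +
    bt (vc c 4) j + bt (vc c 5) j + bt (vc c 6) j)
  ring

lemma bool_col : ∀ b : Fin 8 → Bool, ∀ a : Bool, (∃ i, b i ≠ a ∧ ∀ i', i' ≠ i → b i' = a) ↔
    (∑ i, (b i).toNat) = if a then 7 else 1 := by decide +kernel

lemma bi_toNat (c v j : ℕ) (i : Fin 8) : bi c v j i = (decide (bi c v j i = 1)).toNat := by
  have h : bi c v j i = 0 ∨ bi c v j i = 1 := by
    refine Fin.cases ?_ (fun q => ?_) i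
    · exact bt_cases v j
    · exact bt_cases (vc c q) j
  rcases h with h | h <;> rw [h] <;> rfl

lemma extAt_iff {c v : ℕ} (hA : AffineIndependent ℝ (sv c v)) (j : Fin 6) (a : Bool) :
    ExtAt (sv c v) j.succ (if a then 1 else 0) ↔ s8 c v j = if a then 7 else 1 := by
  have hs : s8 c v j = ∑ i : Fin 8, (decide (bi c v j i = 1)).toNat := by
    rw [s8_eq]
    exact Finset.sum_congr rfl fun i _ => bi_toNat c v j i
  rw [hs, ← bool_col]
  have hb : ∀ i : Fin 8, (sv c v i j.succ = (if a then (1:ℝ) else 0)) ↔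
      decide (bi c v j i = 1) = a := by
    intro i
    rw [sv_bi]
    have h : bi c v j i = 0 ∨ bi c v j i = 1 := by
      refine Fin.cases ?_ (fun q => ?_) i
      · exact bt_cases v j
      · exact bt_cases (vc c q) j
    rcases h with h | h <;> rw [h] <;> cases a <;> simp
  constructor
  · rintro ⟨i, hi⟩
    refine ⟨i, fun h => ?_, fun i' hi' => (hb i').1 (hi i' hi')⟩
    obtain ⟨i', hi'⟩ := exists_ne_of_affineIndependent hA j.succ (if a then (1:ℝ) else 0)
    by_cases h2 : i' = i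
    · rw [h2] at hi'
      exact hi' ((hb i).2 h)
    · exact hi' (hi i' h2)
  · rintro ⟨i, -, hi⟩
    exact ⟨i, fun i' hi' => (hb i').2 (hi i' hi')⟩

lemma extB_iff (c v j : ℕ) : extB c v j = true ↔ s8 c v j = 1 ∨ s8 c v j = 7 := by
  unfold extB
  rw [Bool.or_eq_true]
  exact or_congr (iff_of_eq Nat.beq_eq) (iff_of_eq Nat.beq_eq)

lemma unpack7 (x0 x1 x2 x3 x4 x5 x6 : ℕ) (h0 : x0 < 256) (h1 : x1 < 256) (h2 : x2 < 256)
    (h3 : x3 < 256) (h4 : x4 < 256) (h5 : x5 < 256) (h6 : x6 < 256) (q : Fin 7) :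
    ((x0 + (x1 <<< 8 + (x2 <<< 16 + (x3 <<< 24 + (x4 <<< 32 + (x5 <<< 40 + x6 <<< 48)))))) >>>
      (8 * (q : ℕ))) % 256 = (![x0, x1, x2, x3, x4, x5, x6] : Fin 7 → ℕ) q := by
  simp only [Nat.shiftLeft_eq, Nat.shiftRight_eq_div_pow]
  fin_cases q
  · show (x0 + (x1 * 2 ^ 8 + (x2 * 2 ^ 16 + (x3 * 2 ^ 24 + (x4 * 2 ^ 32 + (x5 * 2 ^ 40 +
      x6 * 2 ^ 48)))))) / 1 % 256 = x0
    omega
  · show (x0 + (x1 * 2 ^ 8 + (x2 * 2 ^ 16 + (x3 * 2 ^ 24 + (x4 * 2 ^ 32 + (x5 * 2 ^ 40 +
      x6 * 2 ^ 48)))))) / 256 % 256 = x1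
    omega
  · show (x0 + (x1 * 2 ^ 8 + (x2 * 2 ^ 16 + (x3 * 2 ^ 24 + (x4 * 2 ^ 32 + (x5 * 2 ^ 40 +
      x6 * 2 ^ 48)))))) / 65536 % 256 = x2
    omega
  · show (x0 + (x1 * 2 ^ 8 + (x2 * 2 ^ 16 + (x3 * 2 ^ 24 + (x4 * 2 ^ 32 + (x5 * 2 ^ 40 +
      x6 * 2 ^ 48)))))) / 16777216 % 256 = x3
    omega
  · show (x0 + (x1 * 2 ^ 8 + (x2 * 2 ^ 16 + (x3 * 2 ^ 24 + (x4 * 2 ^ 32 + (x5 * 2 ^ 40 +
      x6 * 2 ^ 48)))))) / 4294967296 % 256 = x4
    omega
  · show (x0 + (x1 * 2 ^ 8 + (x2 * 2 ^ 16 + (x3 * 2 ^ 24 + (x4 * 2 ^ 32 + (x5 * 2 ^ 40 +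
      x6 * 2 ^ 48)))))) / 1099511627776 % 256 = x5
    omega
  · show (x0 + (x1 * 2 ^ 8 + (x2 * 2 ^ 16 + (x3 * 2 ^ 24 + (x4 * 2 ^ 32 + (x5 * 2 ^ 40 +
      x6 * 2 ^ 48)))))) / 281474976710656 % 256 = x6
    omega

/-- the facet in direction `j` -/
theorem facet_code {c v : ℕ} (hv : v < 64) (hA : AffineIndependent ℝ (sv c v)) {j : Fin 6} {a : ℕ}
    (ha : a = 0 ∨ a = 1) (hav : aval c v j = a) {i : Fin 8}
    (hi : ∀ i', i' ≠ i → sv c v i' j.succ = (a : ℝ)) :
    ∃ π : Equiv.Perm (Fin 7), ∀ q, simp6 (fcode c v j) q = rem (sv c v) i j.succ (π q) := by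
  -- the apex is not the extra vertex
  have hi0 : i ≠ 0 := by
    rintro rfl
    have h1 := aff_rem hA (ext_zero c v)
    rw [rem_zero] at h1
    obtain ⟨q, hq⟩ := exists_ne_of_affineIndependent h1 j (a : ℝ)
    exact hq (hi q.succ (Fin.succ_ne_zero q))
  obtain ⟨q0, rfl⟩ := Fin.exists_succ_eq.2 hi0
  have hne : sv c v q0.succ j.succ ≠ (a : ℝ) := by
    intro h
    obtain ⟨i', hi'⟩ := exists_ne_of_affineIndependent hA j.succ (a : ℝ)
    by_cases h2 : i' = q0.succ
    · rw [h2] at hi'; exact hi' h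
    · exact hi' (hi i' h2)
  have hbq0 : bt (vc c q0) j ≠ a := by
    intro h
    exact hne (by rw [sv_succ_succ, h])
  have hbq : ∀ q : Fin 7, q ≠ q0 → bt (vc c q) j = a := by
    intro q hq
    have := hi q.succ (fun h => hq (Fin.succ_injective _ h))
    rw [sv_succ_succ] at this
    exact_mod_cast this
  -- the codes of the facet
  have hfl : ∀ q : ℕ, fvert a j v (vc c q) < 256 := by
    intro q
    have h1 := del_lt (j := j) (u := vc c q) j.2 (vc_lt' c q)
    have h2 := del_lt (j := j) (u := v) j.2 (by omega)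
    unfold fvert
    cases Nat.beq (bt (vc c q) j) a
    · show Nat.succ (2 * del j v) < 256
      omega
    · show 2 * del j (vc c q) < 256
      omega
  have hfv : ∀ q : Fin 7, vc (fcode c v j) q = fvert a j v (vc c q) := by
    intro q
    have hf : fcode c v j = fvert a j v (vc c 0) + (fvert a j v (vc c 1) <<< 8 +
        (fvert a j v (vc c 2) <<< 16 + (fvert a j v (vc c 3) <<< 24 + (fvert a j v (vc c 4) <<< 32 +
        (fvert a j v (vc c 5) <<< 40 + fvert a j v (vc c 6) <<< 48))))) := by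
      rw [← hav]
      rfl
    show (fcode c v j >>> (8 * (q : ℕ))) % 256 = _
    rw [hf, unpack7 _ _ _ _ _ _ _ (hfl 0) (hfl 1) (hfl 2) (hfl 3) (hfl 4) (hfl 5) (hfl 6)]
    fin_cases q <;> rfl
  -- the permutation
  set t : Fin 7 → Fin 8 := fun q => if q = q0 then 0 else q.succ with ht
  have htne : ∀ q, t q ≠ q0.succ := by
    intro q
    rw [ht]
    beta_reduce
    split_ifs with h
    · exact (Fin.succ_ne_zero q0).symm
    · exact fun h2 => h (Fin.succ_injective _ h2)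
  have htinj : Function.Injective t := by
    intro q q' h
    rw [ht] at h
    beta_reduce at h
    split_ifs at h with h1 h2 h2
    · rw [h1, h2]
    · exact absurd h.symm (Fin.succ_ne_zero q')
    · exact absurd h (Fin.succ_ne_zero q)
    · exact Fin.succ_injective _ h
  choose y hy using fun q => Fin.exists_succAbove_eq (htne q)
  have hyinj : Function.Injective y := by
    intro q q' h
    apply htinj
    rw [← hy q, ← hy q', h]
  refine ⟨Equiv.ofBijective y (Finite.injective_iff_bijective.1 hyinj), fun q => ?_⟩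
  funext j'
  show (bt (vc (fcode c v j) q) j' : ℝ) = sv c v (q0.succ.succAbove (y q)) (j.succ.succAbove j')
  rw [hy q, hfv q]
  by_cases hq : q = q0
  · have h1 : t q = 0 := by rw [ht]; exact if_pos hq
    have h2 : fvert a j v (vc c q) = 2 * del j v + 1 := by
      unfold fvert
      have : Nat.beq (bt (vc c q) j) a = false := by
        rw [← Bool.not_eq_true, Nat.beq_eq, hq]
        exact hbq0
      rw [this]
      rfl
    rw [h1, h2]
    refine Fin.cases ?_ (fun j' => ?_) j'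
    · rw [Fin.succ_succAbove_zero, sv_zero_zero]
      show ((bt (2 * del j v + 1) 0 : ℕ) : ℝ) = 1
      rw [bt_double_one, Nat.cast_one]
    · rw [Fin.succ_succAbove_succ, sv_zero_succ, Fin.val_succ, bt_double_one_succ, bt_del]
  · have h1 : t q = q.succ := by rw [ht]; exact if_neg hq
    have h2 : fvert a j v (vc c q) = 2 * del j (vc c q) := by
      unfold fvert
      have : Nat.beq (bt (vc c q) j) a = true := by
        rw [Nat.beq_eq]
        exact hbq q hq
      rw [this]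
      rfl
    rw [h1, h2]
    refine Fin.cases ?_ (fun j' => ?_) j'
    · rw [Fin.succ_succAbove_zero, sv_succ_zero]
      show ((bt (2 * del j (vc c q)) 0 : ℕ) : ℝ) = 0
      rw [bt_double_zero, Nat.cast_zero]
    · rw [Fin.succ_succAbove_succ, sv_succ_succ, Fin.val_succ, bt_double_succ, bt_del]

lemma gmap_one {d : ℕ} (x : Fin d → ℝ) : gmap (1, fun _ => false) x = x := by
  funext j
  simp [gmap]

lemma aval_eq (c v j : ℕ) : aval c v j = if s8 c v j = 7 then 1 else 0 := by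
  unfold aval
  by_cases h : s8 c v j = 7
  · rw [if_pos h]
    have : Nat.beq (s8 c v j) 7 = true := by rw [Nat.beq_eq]; exact h
    rw [this]
    rfl
  · rw [if_neg h]
    have : Nat.beq (s8 c v j) 7 = false := by rw [← Bool.not_eq_true, Nat.beq_eq]; exact h
    rw [this]
    rfl

/-- the value of a column -/
lemma fphi_col {Φ : (Fin 7 → Fin 6 → ℝ) → ℝ} (hΦ : Inv6 Φ) {c v : ℕ} (hv : v < 64)
    (hA : AffineIndependent ℝ (sv c v)) (j : Fin 6) :
    fphi Φ (sv c v) j.succ 0 + fphi Φ (sv c v) j.succ 1 =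
      if extB c v j = true then Φ (simp6 (fcode c v j)) else 0 := by
  have e0 := extAt_iff hA j false
  have e1 := extAt_iff hA j true
  simp only [Bool.false_eq_true, if_false, if_true] at e0 e1
  have key : ∀ a : ℕ, (a = 0 ∨ a = 1) → aval c v j = a → ExtAt (sv c v) j.succ (a : ℝ) →
      fphi Φ (sv c v) j.succ (a : ℝ) = Φ (simp6 (fcode c v j)) := by
    intro a ha hav hE
    obtain ⟨i, hi⟩ := hE
    obtain ⟨π, hπ⟩ := facet_code hv hA ha hav hi
    rw [fphi_eq hA hi]
    exact (hΦ _ _ (1, fun _ => false) π fun q => by rw [gmap_one]; exact hπ q).symm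
  by_cases h1 : s8 c v j = 1
  · have hx : extB c v j = true := (extB_iff c v j).2 (Or.inl h1)
    have h0 := key 0 (Or.inl rfl) (by rw [aval_eq, if_neg (by omega)]) (by
      rw [Nat.cast_zero]; exact e0.2 h1)
    rw [Nat.cast_zero] at h0
    have h2 : ¬ ExtAt (sv c v) j.succ 1 := fun h => by have := e1.1 h; omega
    rw [if_pos hx, h0, fphi_zero h2, add_zero]
  · by_cases h7 : s8 c v j = 7
    · have hx : extB c v j = true := (extB_iff c v j).2 (Or.inr h7)
      have h0 := key 1 (Or.inr rfl) (by rw [aval_eq, if_pos h7]) (by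
        rw [Nat.cast_one]; exact e1.2 h7)
      rw [Nat.cast_one] at h0
      have h2 : ¬ ExtAt (sv c v) j.succ 0 := fun h => by have := e0.1 h; omega
      rw [if_pos hx, h0, fphi_zero h2, zero_add]
    · have hx : ¬ extB c v j = true := fun h => by
        rcases (extB_iff c v j).1 h with h | h
        · exact h1 h
        · exact h7 h
      rw [if_neg hx, fphi_zero (fun h => h1 (e0.1 h)), fphi_zero (fun h => h7 (e1.1 h)), add_zero]

lemma not_ext_one (c v : ℕ) : ¬ ExtAt (sv c v) 0 1 := by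
  rintro ⟨i, hi⟩
  have h1 : ∀ q : Fin 7, i = q.succ := by
    intro q
    by_contra h
    have h2 := hi q.succ (fun h' => h h'.symm)
    rw [sv_succ_zero] at h2
    norm_num at h2
  have h2 := (h1 0).symm.trans (h1 1)
  have h3 := Fin.succ_injective _ h2
  revert h3
  decide

/-- (a) the weights of the exterior facets -/
theorem sum_fphi_sv {Φ : (Fin 7 → Fin 6 → ℝ) → ℝ} (hΦ : Inv6 Φ) {c v : ℕ} (hv : v < 64)
    (hA : AffineIndependent ℝ (sv c v)) :
    ∑ j, (fphi Φ (sv c v) j 0 + fphi Φ (sv c v) j 1) = Φ (simp6 c) +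
      ∑ j ∈ Finset.range 6, if extB c v j = true then Φ (simp6 (fcode c v j)) else 0 := by
  rw [Fin.sum_univ_succ, fphi_eq hA (ext_zero c v), rem_zero, fphi_zero (not_ext_one c v), add_zero,
    Finset.sum_congr rfl fun j _ => fphi_col hΦ hv hA j]
  rw [← Fin.sum_univ_eq_sum_range (fun j => if extB c v j = true then Φ (simp6 (fcode c v j)) else 0)]

lemma ext_succ_iff {c v : ℕ} (hA : AffineIndependent ℝ (sv c v)) (j : Fin 6) :
    Helper67.Cube.Ext (sv c v) j.succ ↔ extB c v j = true := by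
  rw [extB_iff]
  have e0 := extAt_iff hA j false
  have e1 := extAt_iff hA j true
  simp only [Bool.false_eq_true, if_false, if_true] at e0 e1
  rw [← e0, ← e1]
  constructor
  · rintro ⟨a, ha, hE⟩
    rcases ha with rfl | rfl
    · exact Or.inl hE
    · exact Or.inr hE
  · rintro (h | h)
    · exact ⟨0, Or.inl rfl, h⟩
    · exact ⟨1, Or.inr rfl, h⟩

/-- (b) the number of exterior facets -/
theorem kk_sv {c v : ℕ} (hA : AffineIndependent ℝ (sv c v)) :
    kk (sv c v) = 1 + ((Finset.range 6).filter fun j => extB c v j = true).card := by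
  classical
  unfold kk
  rw [Finset.card_eq_sum_ones, Finset.sum_filter, Fin.sum_univ_succ, if_pos]
  · congr 1
    rw [Finset.card_eq_sum_ones, Finset.sum_filter,
      ← Fin.sum_univ_eq_sum_range (fun j => if extB c v j = true then 1 else 0)]
    refine Finset.sum_congr rfl fun j _ => ?_
    by_cases h : extB c v j = true
    · rw [if_pos h, if_pos ((ext_succ_iff hA j).2 h)]
    · rw [if_neg h, if_neg fun h' => h ((ext_succ_iff hA j).1 h')]
  · exact ⟨0, Or.inl rfl, 0, ext_zero c v⟩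

/-- the facets are affinely independent -/
theorem aff_fcode {c v : ℕ} (hv : v < 64) (hA : AffineIndependent ℝ (sv c v)) {j : ℕ} (hj : j < 6)
    (hx : extB c v j = true) : AffineIndependent ℝ (simp6 (fcode c v j)) := by
  have e0 := extAt_iff hA ⟨j, hj⟩ false
  have e1 := extAt_iff hA ⟨j, hj⟩ true
  simp only [Bool.false_eq_true, if_false, if_true] at e0 e1
  have key : ∀ a : ℕ, (a = 0 ∨ a = 1) → aval c v j = a →
      ExtAt (sv c v) (Fin.succ ⟨j, hj⟩) (a : ℝ) → AffineIndependent ℝ (simp6 (fcode c v j)) := by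
    intro a ha hav hE
    obtain ⟨i, hi⟩ := hE
    obtain ⟨π, hπ⟩ := facet_code (j := ⟨j, hj⟩) hv hA ha hav hi
    have h1 := aff_rem hA hi
    have h2 : simp6 (fcode c v j) = rem (sv c v) i (Fin.succ ⟨j, hj⟩) ∘ π := funext hπ
    rw [h2]
    exact h1.comp_embedding π.toEmbedding
  rcases (extB_iff c v j).1 hx with h | h
  · exact key 0 (Or.inl rfl) (by rw [aval_eq, if_neg (by omega)]) (by
      rw [Nat.cast_zero]; exact e0.2 h)
  · exact key 1 (Or.inr rfl) (by rw [aval_eq, if_pos h]) (by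
      rw [Nat.cast_one]; exact e1.2 h)

end Helper63.Cube8
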