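import Pool.Agent.Helper67.Cube8.Exc
import Pool.Agent.Helper63.Cube8.Facets

/-!
# Witnesses: a packed simplex of the 6-cube is in the class of another one
-/

set_option autoImplicit false

namespace Helper63.Cube8

open Helper67.Cube Helper67.BS Helper67.Cube18 Helper67.Cube8 Helper63.Cube7
open Helper67.Cube6 (vc)

/-- source coordinate of the target coordinate `j` (3 bits each from bit 0) -/
def gp (g j : ℕ) : ℕ := Nat.mod (Nat.shiftRight g (Nat.mul 3 j)) 8

/-- reflection bit of the target coordinate `j` (from bit 18) -/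
def gf (g j : ℕ) : ℕ := Nat.mod (Nat.shiftRight g (Nat.add 18 j)) 2

/-- bit `j` of the image of the vertex `z` -/
def gb (g z j : ℕ) : ℕ := Nat.mod (Nat.add (gf g j) (bt z (gp g j))) 2

/-- the image of the vertex `z` -/
def gim (g z : ℕ) : ℕ :=
  Nat.add (gb g z 0) (Nat.add (Nat.mul 2 (gb g z 1)) (Nat.add (Nat.mul 4 (gb g z 2))
    (Nat.add (Nat.mul 8 (gb g z 3)) (Nat.add (Nat.mul 16 (gb g z 4)) (Nat.mul 32 (gb g z 5))))))

/-- the six source coordinates are all of `0, …, 5` -/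
def gok (g : ℕ) : Bool :=
  Nat.beq (Nat.add (Nat.shiftLeft 1 (gp g 0)) (Nat.add (Nat.shiftLeft 1 (gp g 1))
    (Nat.add (Nat.shiftLeft 1 (gp g 2)) (Nat.add (Nat.shiftLeft 1 (gp g 3))
      (Nat.add (Nat.shiftLeft 1 (gp g 4)) (Nat.shiftLeft 1 (gp g 5))))))) 63

/-- `z` is one of the vertices of `e` -/
def memv (e z : ℕ) : Bool :=
  cond (Nat.beq (vc e 0) z) true (cond (Nat.beq (vc e 1) z) true (cond (Nat.beq (vc e 2) z) true
    (cond (Nat.beq (vc e 3) z) true (cond (Nat.beq (vc e 4) z) true (cond (Nat.beq (vc e 5) z) true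
      (Nat.beq (vc e 6) z))))))

/-- the image under `g` of every vertex of `c` is a vertex of `e` -/
def wit (c g e : ℕ) : Bool :=
  cond (gok g) (cond (memv e (gim g (vc c 0))) (cond (memv e (gim g (vc c 1)))
    (cond (memv e (gim g (vc c 2))) (cond (memv e (gim g (vc c 3))) (cond (memv e (gim g (vc c 4)))
      (cond (memv e (gim g (vc c 5))) (memv e (gim g (vc c 6))) false) false) false) false) false)
        false) false


/-! ### Proof -/

lemma six_eq {a b c d e f : ℕ} (h : a + 2*b + 4*c + 8*d + 16*e + 32*f = 63)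
    (h' : a + b + c + d + e + f = 6) : a = 1 ∧ b = 1 ∧ c = 1 ∧ d = 1 ∧ e = 1 ∧ f = 1 := by
  obtain ⟨a', ha⟩ : ∃ a', a = 2*a'+1 := ⟨a/2, by omega⟩
  obtain ⟨b', hb⟩ : ∃ b', a' + b = 2*b'+1 := ⟨(a'+b)/2, by omega⟩
  obtain ⟨c', hc⟩ : ∃ c', b' + c = 2*c'+1 := ⟨(b'+c)/2, by omega⟩
  obtain ⟨d', hd⟩ : ∃ d', c' + d = 2*d'+1 := ⟨(c'+d)/2, by omega⟩
  obtain ⟨e', he⟩ : ∃ e', d' + e = 2*e'+1 := ⟨(d'+e)/2, by omega⟩
  have h1 : e' + f = 1 := by omega
  omega

lemma inj_of_sum {a : Fin 6 → ℕ} (h : ∑ j, 2 ^ a j = 63) :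
    (∀ j, a j < 6) ∧ Function.Injective a := by
  have hp : ∀ j, a j < 6 := by
    intro j
    have h1 : 2 ^ a j ≤ ∑ j, 2 ^ a j :=
      Finset.single_le_sum (f := fun j => 2 ^ a j) (fun _ _ => Nat.zero_le _) (Finset.mem_univ j)
    by_contra hcon
    have h2 : 2 ^ 6 ≤ 2 ^ a j := Nat.pow_le_pow_right (by norm_num) (by omega)
    omega
  refine ⟨hp, ?_⟩
  obtain ⟨n, hn⟩ : ∃ n : ℕ → ℕ, ∀ t, n t = (Finset.univ.filter fun j => a j = t).card :=
    ⟨_, fun _ => rfl⟩
  have h1 : ∑ t ∈ Finset.range 6, ∑ j with a j = t, 2 ^ a j = 63 := by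
    rw [Finset.sum_fiberwise_of_maps_to (fun j _ => Finset.mem_range.2 (hp j)), h]
  have h2 : ∑ t ∈ Finset.range 6, n t = 6 := by
    simp only [hn, Finset.card_eq_sum_ones]
    rw [Finset.sum_fiberwise_of_maps_to (fun j _ => Finset.mem_range.2 (hp j))]
    simp
  have h3 : ∀ t, ∑ j with a j = t, 2 ^ a j = n t * 2 ^ t := by
    intro t
    rw [hn, Finset.card_eq_sum_ones, Finset.sum_mul]
    refine Finset.sum_congr rfl fun j hj => ?_
    rw [(Finset.mem_filter.1 hj).2, one_mul]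
  simp only [h3] at h1
  simp only [Finset.sum_range_succ, Finset.sum_range_zero, zero_add] at h1 h2
  obtain ⟨e0, e1, e2, e3, e4, e5⟩ := six_eq (a := n 0) (b := n 1) (c := n 2) (d := n 3) (e := n 4)
    (f := n 5) (by omega) h2
  have h4 : ∀ t < 6, n t = 1 := by
    intro t ht
    interval_cases t <;> assumption
  intro i j hij
  have h5 := h4 (a i) (hp i)
  rw [hn, Finset.card_eq_one] at h5
  obtain ⟨x, hx⟩ := h5
  have hi : i ∈ Finset.univ.filter fun k => a k = a i := by simp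
  have hj : j ∈ Finset.univ.filter fun k => a k = a i := by simp [hij]
  rw [hx, Finset.mem_singleton] at hi hj
  rw [hi, hj]

lemma gb_le (g z j : ℕ) : gb g z j ≤ 1 := by
  have h : gb g z j = (gf g j + bt z (gp g j)) % 2 := rfl
  omega

lemma bt_gim (g z : ℕ) (j : Fin 6) : bt (gim g z) j = gb g z j := by
  have h0 := gb_le g z 0
  have h1 := gb_le g z 1
  have h2 := gb_le g z 2
  have h3 := gb_le g z 3
  have h4 := gb_le g z 4
  have h5 := gb_le g z 5
  have e : gim g z = gb g z 0 + (2 * gb g z 1 + (4 * gb g z 2 + (8 * gb g z 3 +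
    (16 * gb g z 4 + 32 * gb g z 5)))) := rfl
  have f : ∀ q, bt (gim g z) q = gim g z / 2 ^ q % 2 := fun q => by
    rw [← Nat.shiftRight_eq_div_pow]
    rfl
  fin_cases j
  · show bt (gim g z) 0 = gb g z 0
    rw [f]
    norm_num
    omega
  · show bt (gim g z) 1 = gb g z 1
    rw [f]
    norm_num
    omega
  · show bt (gim g z) 2 = gb g z 2
    rw [f]
    norm_num
    omega
  · show bt (gim g z) 3 = gb g z 3
    rw [f]
    norm_num
    omega
  · show bt (gim g z) 4 = gb g z 4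
    rw [f]
    norm_num
    omega
  · show bt (gim g z) 5 = gb g z 5
    rw [f]
    norm_num
    omega

lemma exists_gmap {g : ℕ} (h : gok g = true) :
    ∃ G : Sym 6, ∀ z, gmap G (vtx 6 z) = vtx 6 (gim g z) := by
  have h1 : 1 <<< gp g 0 + (1 <<< gp g 1 + (1 <<< gp g 2 + (1 <<< gp g 3 + (1 <<< gp g 4 +
      1 <<< gp g 5)))) = 63 := Nat.eq_of_beq_eq_true h
  simp only [Nat.shiftLeft_eq, one_mul] at h1
  obtain ⟨h2, h3⟩ := inj_of_sum (a := fun j : Fin 6 => gp g j) (by
    rw [Fin.sum_univ_succ, Fin.sum_univ_succ, Fin.sum_univ_succ, Fin.sum_univ_succ,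
      Fin.sum_univ_succ, Fin.sum_univ_succ, Fin.sum_univ_zero, add_zero]
    exact h1)
  have hinj : Function.Injective (fun j : Fin 6 => (⟨gp g j, h2 j⟩ : Fin 6)) := by
    intro i j hij
    exact h3 (congrArg Fin.val hij)
  refine ⟨(Equiv.ofBijective _ (Finite.injective_iff_bijective.1 hinj),
    fun j => decide (gf g j = 1)), fun z => ?_⟩
  funext j
  have e1 : vtx 6 (gim g z) j = ((gb g z j : ℕ) : ℝ) := by
    rw [← bt_gim]
    rfl
  have e2 : gb g z j = (gf g j + bt z (gp g j)) % 2 := rfl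
  rw [e1, e2]
  show (if decide (gf g j = 1) = true then 1 - ((bt z (gp g j) : ℕ) : ℝ) else
    ((bt z (gp g j) : ℕ) : ℝ)) = _
  have h4 : gf g j = 0 ∨ gf g j = 1 := Nat.mod_two_eq_zero_or_one _
  rcases h4 with h4 | h4 <;> rcases bt_cases z (gp g j) with h5 | h5 <;> rw [h4, h5] <;> simp

lemma memv_spec {e z : ℕ} (h : memv e z = true) : ∃ q' < 7, vc e q' = z := by
  unfold memv at h
  cases h0 : Nat.beq (vc e 0) z
  · rw [h0, cond_false] at h
    cases h1 : Nat.beq (vc e 1) z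
    · rw [h1, cond_false] at h
      cases h2 : Nat.beq (vc e 2) z
      · rw [h2, cond_false] at h
        cases h3 : Nat.beq (vc e 3) z
        · rw [h3, cond_false] at h
          cases h4 : Nat.beq (vc e 4) z
          · rw [h4, cond_false] at h
            cases h5 : Nat.beq (vc e 5) z
            · rw [h5, cond_false] at h
              exact ⟨6, by norm_num, Nat.eq_of_beq_eq_true h⟩
            · exact ⟨5, by norm_num, Nat.eq_of_beq_eq_true h5⟩
          · exact ⟨4, by norm_num, Nat.eq_of_beq_eq_true h4⟩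
        · exact ⟨3, by norm_num, Nat.eq_of_beq_eq_true h3⟩
      · exact ⟨2, by norm_num, Nat.eq_of_beq_eq_true h2⟩
    · exact ⟨1, by norm_num, Nat.eq_of_beq_eq_true h1⟩
  · exact ⟨0, by norm_num, Nat.eq_of_beq_eq_true h0⟩

lemma cond_and {a b : Bool} (h : cond a b false = true) : a = true ∧ b = true := by
  cases a
  · exact absurd h (by simp)
  · exact ⟨rfl, h⟩

theorem wit_spec {c g e : ℕ} (h : wit c g e = true) : cls (simp6 c) e := by
  unfold wit at h
  obtain ⟨hg, h⟩ := cond_and h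
  obtain ⟨h0, h⟩ := cond_and h
  obtain ⟨h1, h⟩ := cond_and h
  obtain ⟨h2, h⟩ := cond_and h
  obtain ⟨h3, h⟩ := cond_and h
  obtain ⟨h4, h⟩ := cond_and h
  obtain ⟨h5, h6⟩ := cond_and h
  obtain ⟨G, hG⟩ := exists_gmap hg
  have key : ∀ q : Fin 7, memv e (gim g (vc c q)) = true := by
    intro q
    fin_cases q
    · exact h0
    · exact h1
    · exact h2
    · exact h3
    · exact h4
    · exact h5
    · exact h6
  refine ⟨G, fun q => ?_⟩
  obtain ⟨q', hq', hz⟩ := memv_spec (key q)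
  refine ⟨q', hq', ?_⟩
  rw [hz]
  exact hG (vc c q)

end Helper63.Cube8
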