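import Pool.Agent.Helper63.Cube8.Step
import Pool.Agent.Helper63.Cube8.Wit
import Pool.Agent.Helper51.Cube8.Inv

/-!
# The explicit check at the exceptional classes
-/

set_option autoImplicit false

namespace Helper63.Cube8

open Helper67.Cube Helper67.BS Helper67.Cube18 Helper67.Cube8 Helper63.Cube7
open Helper67.Cube6 (vc Ent)

/-- entry `n` of a list of numbers -/
def nth (l : List ℕ) : ℕ → ℕ :=
  List.rec (motive := fun _ => ℕ → ℕ) (fun _ => 0)
    (fun a _ ih n => Nat.rec (motive := fun _ => ℕ) a (fun m _ => ih m) n) l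

/-- entry `n` of a list of lists -/
def nthL (l : List (List ℕ)) : ℕ → List ℕ :=
  List.rec (motive := fun _ => ℕ → List ℕ) (fun _ => [])
    (fun a _ ih n => Nat.rec (motive := fun _ => List ℕ) a (fun m _ => ih m) n) l

/-- a property of all numbers below `n` -/
def allB (P : ℕ → Bool) (n : ℕ) : Bool :=
  Nat.rec (motive := fun _ => Bool) true (fun i ih => cond (P i) ih false) n

lemma allB_spec {P : ℕ → Bool} {n : ℕ} (h : allB P n = true) : ∀ i < n, P i = true := by
  induction n with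
  | zero => intro i hi; omega
  | succ n ih =>
    have h1 : allB P (n+1) = cond (P n) (allB P n) false := rfl
    rw [h1] at h
    cases h2 : P n
    · rw [h2] at h
      exact absurd h (by simp)
    · rw [h2, cond_true] at h
      intro i hi
      rcases Nat.lt_succ_iff_lt_or_eq.1 hi with h3 | rfl
      · exact ih h i h3
      · exact h2

/-- slot `j` of the table entry -/
def slj (t j : ℕ) : ℕ := Nat.mod (Nat.shiftRight t (Nat.mul 48 j)) 281474976710656

/-- index of the class of the facet in direction `j` -/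
def six (t j : ℕ) : ℕ := Nat.mod (slj t j) 65536

/-- code of the symmetry for the facet in direction `j` -/
def sgj (t j : ℕ) : ℕ := Nat.shiftRight (slj t j) 16

/-- one if there is an exterior facet in direction `j` -/
def oj (c v j : ℕ) : ℕ := cond (extB c v j) 1 0

/-- number of exterior facets of `sv c v` -/
def kE (c v : ℕ) : ℕ :=
  Nat.add 1 (Nat.add (oj c v 0) (Nat.add (oj c v 1) (Nat.add (oj c v 2) (Nat.add (oj c v 3)
    (Nat.add (oj c v 4) (oj c v 5))))))

/-- the witness at direction `j` -/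
def wj (cd : ℕ → ℕ) (n c v t j : ℕ) : Bool :=
  cond (extB c v j) (cond (Nat.blt (six t j) n)
    (wit (fcode c v j) (sgj t j) (cd (six t j))) false) true

/-- all witnesses -/
def witB (cd : ℕ → ℕ) (wt : ℕ → ℕ → ℕ) (nE n : ℕ) : Bool :=
  allB (fun a => allB (fun v => cond (Nat.ble 3 (kE (cd a) v))
    (allB (fun j => wj cd n (cd a) v (wt a v) j) 6) true) 64) nE

/-- value of the exterior facet in direction `j` -/
def vj (vl : ℕ → ℕ) (c v t j : ℕ) : ℕ := cond (extB c v j) (vl (six t j)) 0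

/-- sum of the values of the exterior facets -/
def sumV (vl : ℕ → ℕ) (c v t : ℕ) : ℕ :=
  Nat.add (vj vl c v t 0) (Nat.add (vj vl c v t 1) (Nat.add (vj vl c v t 2)
    (Nat.add (vj vl c v t 3) (Nat.add (vj vl c v t 4) (vj vl c v t 5)))))

/-- check of the thresholds `TH a k` -/
def valB (cd : ℕ → ℕ) (wt : ℕ → ℕ → ℕ) (vl : ℕ → ℕ) (TH : ℕ → ℕ → ℕ) (nE : ℕ) : Bool :=
  allB (fun a => allB (fun v => cond (Nat.ble 3 (kE (cd a) v))
    (Nat.ble (Nat.add (vl a) (sumV vl (cd a) v (wt a v))) (TH a (kE (cd a) v))) true) 64) nE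

lemma kE_eq (c v : ℕ) :
    kE c v = 1 + ((Finset.range 6).filter fun j => extB c v j = true).card := by
  rw [Finset.card_eq_sum_ones, Finset.sum_filter]
  have h : ∀ j, oj c v j = if extB c v j = true then 1 else 0 := by
    intro j
    unfold oj
    cases extB c v j <;> simp
  simp only [← h, Finset.sum_range_succ, Finset.sum_range_zero]
  show 1 + (oj c v 0 + (oj c v 1 + (oj c v 2 + (oj c v 3 + (oj c v 4 + oj c v 5))))) = _
  omega

lemma sumV_eq (vl : ℕ → ℕ) (c v t : ℕ) :
    sumV vl c v t = ∑ j ∈ Finset.range 6, if extB c v j = true then vl (six t j) else 0 := by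
  have h : ∀ j, vj vl c v t j = if extB c v j = true then vl (six t j) else 0 := by
    intro j
    unfold vj
    cases extB c v j <;> simp
  simp only [← h, Finset.sum_range_succ, Finset.sum_range_zero]
  show vj vl c v t 0 + (vj vl c v t 1 + (vj vl c v t 2 + (vj vl c v t 3 + (vj vl c v t 4 +
    vj vl c v t 5)))) = _
  omega

lemma kk_kE {c v : ℕ} (hA : AffineIndependent ℝ (sv c v)) : kk (sv c v) = kE c v := by
  rw [kk_sv hA, kE_eq]

/-- the determinants of the facets -/
theorem vdet_fcode {c v : ℕ} (hv : v < 64) (hA : AffineIndependent ℝ (sv c v)) {j : ℕ} (hj : j < 6)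
    (hx : extB c v j = true) : vdet (simp6 (fcode c v j)) = vdet (simp6 c) := by
  have e0 := extAt_iff hA ⟨j, hj⟩ false
  have e1 := extAt_iff hA ⟨j, hj⟩ true
  simp only [Bool.false_eq_true, if_false, if_true] at e0 e1
  have key : ∀ a : ℕ, (a = 0 ∨ a = 1) → aval c v j = a →
      ExtAt (sv c v) (Fin.succ ⟨j, hj⟩) (a : ℝ) → vdet (simp6 (fcode c v j)) = vdet (simp6 c) := by
    intro a ha hav hE
    obtain ⟨i, hi⟩ := hE
    obtain ⟨π, hπ⟩ := facet_code (j := ⟨j, hj⟩) hv hA ha hav hi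
    have h2 : simp6 (fcode c v j) = fun q => rem (sv c v) i (Fin.succ ⟨j, hj⟩) (π q) := funext hπ
    have ha' : (a : ℝ) = 0 ∨ (a : ℝ) = 1 := by
      rcases ha with rfl | rfl
      · left; norm_num
      · right; norm_num
    rw [h2, vdet_comp, vdet_eq_rem hA (sv_bool c v) ha' hi, vdet_sv]
  rcases (extB_iff c v j).1 hx with h | h
  · exact key 0 (Or.inl rfl) (by rw [aval_eq, if_neg (by omega)]) (by
      rw [Nat.cast_zero]; exact e0.2 h)
  · exact key 1 (Or.inr rfl) (by rw [aval_eq, if_pos h]) (by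
      rw [Nat.cast_one]; exact e1.2 h)

lemma cls_self (c : ℕ) : cls (simp6 c) c :=
  ⟨(1, fun _ => false), fun q => ⟨q, q.2, gmap_one _⟩⟩

section expl
variable {cd : ℕ → ℕ} {wt : ℕ → ℕ → ℕ} {nE n : ℕ} {Q : ℕ} {x : ℕ → Fin 6 → ℕ} {lp ln : List ℕ}
  {off : ℕ} {vl : ℕ → ℕ} {TH : ℕ → ℕ → ℕ} {lam mu : ℚ} {c : ℕ → ℚ} {i : ℕ}

/-- **the explicit inequality** -/
theorem explicit (hw : witB cd wt nE n = true) (hn : nE ≤ n) (hv : valB cd wt vl TH nE = true)
    (hval : ∀ a < n, ∀ w : Fin 7 → Fin 6 → ℝ, AffineIndependent ℝ w → cls w (cd a) →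
      PhiL Q x lp ln w + off ≤ vl a) (hlam : 0 ≤ lam)
    (hth : ∀ a < nE, ∀ k < 8, 3 ≤ k → c i * Helper63.Cube7.detE (cd a) +
      lam * ((TH a k : ℚ) - k * off) + mu * (k * Helper63.Cube7.detE (cd a)) ≤
        aQ i k - Helper63.Cube7.detE (cd a) * bQ c i k)
    {a : ℕ} (ha : a < nE) {v : ℕ} (hv64 : v < 64) (hA : AffineIndependent ℝ (sv (cd a) v))
    (hk : 3 ≤ kk (sv (cd a) v)) :
    (c i : ℝ) * vdet (sv (cd a) v) +
      ∑ j, (fphi (fun w => (lam : ℝ) * PhiL Q x lp ln w + (mu : ℝ) * vdet w) (sv (cd a) v) j 0 +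
        fphi (fun w => (lam : ℝ) * PhiL Q x lp ln w + (mu : ℝ) * vdet w) (sv (cd a) v) j 1) ≤
        psiQ c i (ndet (sv (cd a) v)) (kk (sv (cd a) v)) := by
  set C := cd a with hC
  have hS := aff_simp6 hA
  obtain ⟨g, hg⟩ := cls_self C
  have hdet : vdet (simp6 C) = (Helper63.Cube7.detE C : ℕ) := (detE_kkE hS hg).1
  have hnd : (ndet (sv C v) : ℝ) = (Helper63.Cube7.detE C : ℕ) := by
    rw [ndet_cast (sv_bool C v), vdet_sv, hdet]
  have hnd' : ndet (sv C v) = Helper63.Cube7.detE C := by exact_mod_cast hnd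
  have hk1 : 3 ≤ kE C v := by rw [← kk_kE hA]; exact hk
  have hk2 : kE C v < 8 := by
    rw [kE_eq]
    have := Finset.card_filter_le (Finset.range 6) fun j => extB C v j = true
    rw [Finset.card_range] at this
    omega
  have hble : Nat.ble 3 (kE C v) = true := Nat.ble_eq_true_of_le hk1
  -- the checks at `a`, `v`
  have w1 := allB_spec (allB_spec hw a ha) v hv64
  have v1 := allB_spec (allB_spec hv a ha) v hv64
  rw [← hC, hble, cond_true] at w1 v1
  have w2 := allB_spec w1
  have v2 : vl a + sumV vl C v (wt a v) ≤ TH a (kE C v) := Nat.le_of_ble_eq_true v1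
  rw [sumV_eq] at v2
  rw [sum_fphi_sv (Helper51.Cube8.inv6 _ _ _ _ _ _) hv64 hA]
  have hsum : (∑ j ∈ Finset.range 6, if extB C v j = true then
      ((lam : ℝ) * PhiL Q x lp ln (simp6 (fcode C v j)) + (mu : ℝ) * vdet (simp6 (fcode C v j)))
        else 0) ≤ ∑ j ∈ Finset.range 6, if extB C v j = true then
      ((lam : ℝ) * ((vl (six (wt a v) j) : ℝ) - off) + (mu : ℝ) * (Helper63.Cube7.detE C : ℕ))
        else 0 := by
    refine Finset.sum_le_sum fun j hj => ?_
    have hj6 := Finset.mem_range.1 hj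
    by_cases hx : extB C v j = true
    · rw [if_pos hx, if_pos hx, vdet_fcode hv64 hA hj6 hx, hdet]
      have h1 := w2 j hj6
      unfold wj at h1
      rw [hx, cond_true] at h1
      cases h3 : Nat.blt (six (wt a v) j) n
      · rw [h3] at h1
        exact absurd h1 (by simp)
      · rw [h3, cond_true] at h1
        have h4 := hval _ (Nat.blt_eq.mp h3) _ (aff_fcode hv64 hA hj6 hx) (wit_spec h1)
        have h5 : (lam : ℝ) * PhiL Q x lp ln (simp6 (fcode C v j)) ≤
            (lam : ℝ) * ((vl (six (wt a v) j) : ℝ) - off) :=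
          mul_le_mul_of_nonneg_left (by linarith) (by exact_mod_cast hlam)
        linarith
    · rw [if_neg hx, if_neg hx]
  have hsum2 : (∑ j ∈ Finset.range 6, if extB C v j = true then
      ((lam : ℝ) * ((vl (six (wt a v) j) : ℝ) - off) + (mu : ℝ) * (Helper63.Cube7.detE C : ℕ))
        else 0) = (lam : ℝ) * (((∑ j ∈ Finset.range 6,
          if extB C v j = true then vl (six (wt a v) j) else 0 : ℕ) : ℝ) -
            ((kE C v : ℝ) - 1) * off) + (mu : ℝ) * (((kE C v : ℝ) - 1) *
              (Helper63.Cube7.detE C : ℕ)) := by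
    have hc : ((kE C v : ℝ) - 1) = ∑ j ∈ Finset.range 6, if extB C v j = true then (1:ℝ) else 0 := by
      rw [kE_eq, Finset.card_eq_sum_ones, Finset.sum_filter]
      push_cast
      ring
    rw [hc]
    push_cast
    simp only [Finset.sum_mul, ← Finset.sum_sub_distrib, Finset.mul_sum, ← Finset.sum_add_distrib]
    refine Finset.sum_congr rfl fun j _ => ?_
    split_ifs <;> ring
  have h6 := hval a (lt_of_lt_of_le ha hn) _ hS ⟨g, hg⟩
  have h7 : (lam : ℝ) * PhiL Q x lp ln (simp6 C) ≤ (lam : ℝ) * ((vl a : ℝ) - off) :=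
    mul_le_mul_of_nonneg_left (by linarith) (by exact_mod_cast hlam)
  have h8 := hth a ha (kE C v) hk2 hk1
  rw [← hC] at h8
  have h9 : ((c i : ℚ) : ℝ) * (Helper63.Cube7.detE C : ℕ) +
      (lam : ℝ) * ((TH a (kE C v) : ℝ) - (kE C v : ℝ) * off) +
        (mu : ℝ) * ((kE C v : ℝ) * (Helper63.Cube7.detE C : ℕ)) ≤
          psiQ c i (Helper63.Cube7.detE C) (kE C v) := by
    unfold psiQ
    exact_mod_cast h8
  have h10 : ((vl a : ℝ) + ((∑ j ∈ Finset.range 6,
      if extB C v j = true then vl (six (wt a v) j) else 0 : ℕ) : ℝ)) ≤ (TH a (kE C v) : ℝ) := by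
    exact_mod_cast v2
  have h11 := mul_le_mul_of_nonneg_left h10 (show (0:ℝ) ≤ (lam : ℝ) by exact_mod_cast hlam)
  rw [hnd', kk_kE hA, vdet_sv, hdet]
  refine le_trans ?_ h9
  refine le_trans (add_le_add_right (add_le_add_right (hsum.trans (le_of_eq hsum2)) _) _) ?_
  linarith

end expl

end Helper63.Cube8
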