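import Pool.Agent.Helper63.Cube8.Check

/-!
# Dissections in dimension `6 + t` with exceptional classes at level 6
-/

set_option autoImplicit false

namespace Helper63.Cube8

open Helper67.Cube Helper67.BS Helper67.Cube18 Helper67.Cube8 Helper63.Cube7 Helper41.Target
open Helper67.Cube6 (vc Ent)

/-- the codes and the bounds of the values of the list of classes -/
def valC (cd vl : ℕ → ℕ) (off : ℕ) (lp ln : List ℕ) (DX : List Ent) : ℕ → Bool :=
  List.rec (motive := fun _ => ℕ → Bool) (fun _ => true)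
    (fun e _ ih a => cond (Nat.beq e.c (cd a))
      (cond (Nat.ble (Nat.add (wsumL lp e.pc) off) (Nat.add (vl a) (wsumL ln e.pc)))
        (ih (Nat.succ a)) false) false) DX

lemma valC_spec {cd vl : ℕ → ℕ} {off : ℕ} {lp ln : List ℕ} (DX : List Ent) :
    ∀ a0 : ℕ, valC cd vl off lp ln DX a0 = true → ∀ a < DX.length, ∃ e ∈ DX,
      e.c = cd (a0 + a) ∧ wsumL lp e.pc + off ≤ vl (a0 + a) + wsumL ln e.pc := by
  induction DX with
  | nil => intro a0 _ a ha; simp at ha
  | cons e l ih =>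
    intro a0 h a ha
    have h1 : valC cd vl off lp ln (e :: l) a0 = cond (Nat.beq e.c (cd a0))
        (cond (Nat.ble (Nat.add (wsumL lp e.pc) off) (Nat.add (vl a0) (wsumL ln e.pc)))
          (valC cd vl off lp ln l (Nat.succ a0)) false) false := rfl
    rw [h1] at h
    cases h2 : Nat.beq e.c (cd a0)
    · rw [h2] at h; exact absurd h (by simp)
    · rw [h2, cond_true] at h
      cases h3 : Nat.ble (Nat.add (wsumL lp e.pc) off) (Nat.add (vl a0) (wsumL ln e.pc))
      · rw [h3] at h; exact absurd h (by simp)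
      · rw [h3, cond_true] at h
        rcases a with - | a
        · exact ⟨e, List.mem_cons_self, Nat.eq_of_beq_eq_true h2, Nat.le_of_ble_eq_true h3⟩
        · obtain ⟨e', he', h4, h5⟩ := ih _ h a (by simpa using ha)
          have e1 : a0 + (a + 1) = Nat.succ a0 + a := by omega
          rw [e1]
          exact ⟨e', List.mem_cons_of_mem _ he', h4, h5⟩

/-- the exceptional codes are the first codes of the list -/
def ecB (cd : ℕ → ℕ) (nE : ℕ) (EC : List ℕ) : ℕ → Bool :=
  List.rec (motive := fun _ => ℕ → Bool) (fun _ => true)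
    (fun e _ ih a => cond (Nat.blt a nE) (cond (Nat.beq e (cd a)) (ih (Nat.succ a)) false) false) EC

lemma ecB_spec {cd : ℕ → ℕ} {nE : ℕ} (EC : List ℕ) :
    ∀ a0 : ℕ, ecB cd nE EC a0 = true → ∀ e ∈ EC, ∃ a < nE, e = cd a := by
  induction EC with
  | nil => intro a0 _ e he; simp at he
  | cons b l ih =>
    intro a0 h e he
    have h1 : ecB cd nE (b :: l) a0 = cond (Nat.blt a0 nE) (cond (Nat.beq b (cd a0))
      (ecB cd nE l (Nat.succ a0)) false) false := rfl
    rw [h1] at h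
    cases h2 : Nat.blt a0 nE
    · rw [h2] at h; exact absurd h (by simp)
    · rw [h2, cond_true] at h
      cases h3 : Nat.beq b (cd a0)
      · rw [h3] at h; exact absurd h (by simp)
      · rw [h3, cond_true] at h
        rcases List.mem_cons.1 he with rfl | he
        · exact ⟨a0, Nat.blt_eq.mp h2, Nat.eq_of_beq_eq_true h3⟩
        · exact ih _ h e he

/-- the determinants of the exceptional classes -/
def detB (cd dl : ℕ → ℕ) (nE : ℕ) : Bool :=
  allB (fun a => Nat.beq (Helper63.Cube7.detE (cd a)) (dl a)) nE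

/-- the rational inequalities at the exceptional classes -/
def excQ (nE : ℕ) (dl vl : ℕ → ℕ) (TH : ℕ → ℕ → ℕ) (off : ℕ) (lam mu : ℚ) (c : ℕ → ℚ) (i : ℕ) :
    Prop :=
  ∀ a < nE, (lam * ((vl a : ℚ) - off) + mu * dl a + c i * dl a ≤ aQ i 1 - dl a * bQ c i 1) ∧
    (2 * (lam * ((vl a : ℚ) - off) + mu * dl a) + c i * dl a ≤ aQ i 2 - dl a * bQ c i 2) ∧
    ∀ k < 8, k < 3 ∨ c i * dl a + lam * ((TH a k : ℚ) - k * off) + mu * (k * dl a) ≤
      aQ i k - dl a * bQ c i k

instance (nE : ℕ) (dl vl : ℕ → ℕ) (TH : ℕ → ℕ → ℕ) (off : ℕ) (lam mu : ℚ) (c : ℕ → ℚ) (i : ℕ) :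
    Decidable (excQ nE dl vl TH off lam mu c i) := by
  unfold excQ; infer_instance

section level
variable {Q g G : ℕ} {x : ℕ → Fin 6 → ℕ} {ev : ℕ → ℕ → ℕ} {D DX : List Ent}
  {M : ℕ → ℕ → ℕ} {off : ℕ} {lp ln : List ℕ}
  {cd dl : ℕ → ℕ} {wt : ℕ → ℕ → ℕ} {nE : ℕ} {vl : ℕ → ℕ} {TH : ℕ → ℕ → ℕ}
  {EC : List ℕ} {lam mu : ℚ} {c : ℕ → ℚ} {i : ℕ}

lemma vol_le {N : ℕ} {W : Fin N → Fin 7 → Fin 6 → ℝ} (hW : IsCover W) (hv : IsVertexFamily W) :
    (720 : ℝ) ≤ ∑ s, vdet (W s) := by
  have h1 := base_of_le hW hv (psi := fun δ _ => (δ : ℝ)) (Φ := fun _ => 0) (lam := 0) (mu := 1)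
    (Tot := 0) le_rfl zero_le_one (fun w _ hb => by
      show (0:ℝ) * 0 + 1 * vdet w ≤ ((ndet w : ℕ) : ℝ)
      rw [ndet_cast hb]
      linarith) (by simp)
  have h2 : ∑ s, ((ndet (W s) : ℕ) : ℝ) = ∑ s, vdet (W s) :=
    Finset.sum_congr rfl fun s _ => ndet_cast (hv s)
  have h3 : ((6).factorial : ℝ) = 720 := by norm_num [Nat.factorial]
  beta_reduce at h1
  rw [h2, h3] at h1
  linarith

/-- **dissections: the inequality at level 7** -/
theorem levX (h : Base6 Q g G x ev D) (hX : ExtD Q g G x ev DX) (hM : LZX EC M off lp ln D)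
    (hlp : kindB (G * g) 0 (fun o => ev (o / g) (o % g)) lp = true)
    (hln : kindB (G * g) 1 (fun o => ev (o / g) (o % g)) ln = true)
    (hb : Helper67.BS.baseZ VV c M off lam mu 6 (i+1)) (hs : stepQ VV c i 6)
    (hEC : ∀ e ∈ EC, ∃ a < nE, e = cd a) (hn : nE ≤ DX.length)
    (hw : witB cd wt nE DX.length = true) (hdl : detB cd dl nE = true)
    (hvB : valB cd wt vl TH nE = true) (hvC : valC cd vl off lp ln DX 0 = true)
    (hq : excQ nE dl vl TH off lam mu c i) :
    LevP true c 7 i (c i * 5040 + 14 *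
      (lam * (((46080 * totL lp : ℕ) : ℚ) - ((46080 * totL ln : ℕ) : ℚ)) + mu * 720)) := by
  classical
  obtain ⟨hlam, hmu, hb⟩ := hb
  have hlamR : (0:ℝ) ≤ (lam : ℝ) := by exact_mod_cast hlam
  have hmuR : (0:ℝ) ≤ (mu : ℝ) := by exact_mod_cast hmu
  obtain ⟨V', hV', hVm', hVe⟩ := exists_V (V := VV) (B := 7) (fun i hi => VV_le i (by omega))
    (fun i hi => VV_mono i (by omega))
  have hval : ∀ a < DX.length, ∀ w : Fin 7 → Fin 6 → ℝ, AffineIndependent ℝ w → cls w (cd a) →
      PhiL Q x lp ln w + off ≤ vl a := by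
    intro a ha w hw hc
    obtain ⟨e, he, h1, h2⟩ := valC_spec DX 0 hvC a ha
    rw [zero_add] at h1 h2
    rw [← h1] at hc
    have h3 := hX.val hlp hln he hw hc
    have h4 : ((wsumL lp e.pc : ℕ) : ℝ) + off ≤ vl a + wsumL ln e.pc := by exact_mod_cast h2
    linarith
  have hdet : ∀ a < nE, Helper63.Cube7.detE (cd a) = dl a := fun a ha =>
    Nat.eq_of_beq_eq_true (allB_spec hdl a ha)
  let Φ : (Fin 7 → Fin 6 → ℝ) → ℝ := fun w => (lam : ℝ) * PhiL Q x lp ln w + (mu : ℝ) * vdet w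
  let Be : ℕ → ℚ := fun e => if h : ∃ a < nE, e = cd a then
    lam * ((vl (Classical.choose h) : ℚ) - off) + mu * dl (Classical.choose h) else 0
  have hBe : ∀ e ∈ EC, ∃ a < nE, e = cd a ∧ Be e = lam * ((vl a : ℚ) - off) + mu * dl a := by
    intro e he
    have h1 := hEC e he
    refine ⟨Classical.choose h1, (Classical.choose_spec h1).1, (Classical.choose_spec h1).2, ?_⟩
    show (if h : ∃ a < nE, e = cd a then _ else _) = _
    rw [dif_pos h1]
  refine stepX (Φ := Φ) (Be := Be) (EC := EC) (V := VV) (Helper51.Cube8.inv6 _ _ _ _ _ _)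
    (fun i hi => VV_le i (by omega)) (fun i hi => VV_mono i (by omega)) hs ?_ ?_ ?_ ?_ ?_ ?_
  · -- the classes which are not exceptional
    intro w hw' hv'
    rcases h.objX hM hlp hln w hw' hv' with h1 | h1
    · left
      have h2 := ndet_le hV' hVm' hv'
      rw [hVe _ (by omega)] at h2
      have h3 := one_le_ndet hw' hv'
      have h4 := (hb (kk w) (by have := kk_le w; omega) (ndet w) (by omega)).resolve_left (by omega)
      have h5 : (lam : ℝ) * PhiL Q x lp ln w ≤ lam * (M (kk w) (ndet w) - off) :=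
        mul_le_mul_of_nonneg_left (by linarith) hlamR
      have h6 : ((lam * ((M (kk w) (ndet w) : ℚ) - off) + mu * ndet w : ℚ) : ℝ) ≤
          psiQ c (i+1) (ndet w) (kk w) := by
        unfold psiQ
        exact_mod_cast h4
      push_cast at h6
      rw [ndet_cast hv'] at h6
      show (lam : ℝ) * PhiL Q x lp ln w + (mu : ℝ) * vdet w ≤ _
      linarith
    · exact Or.inr h1
  · -- values at the exceptional classes
    intro e he w hw' hc
    obtain ⟨a, ha, rfl, h2⟩ := hBe e he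
    rw [h2]
    have h3 := hval a (by omega) w hw' hc
    obtain ⟨gg, hgg⟩ := hc
    have h4 : vdet w = (dl a : ℕ) := by
      rw [← hdet a ha]
      exact (detE_kkE hw' hgg).1
    have h5 : (lam : ℝ) * PhiL Q x lp ln w ≤ lam * ((vl a : ℝ) - off) :=
      mul_le_mul_of_nonneg_left (by linarith) hlamR
    show (lam : ℝ) * PhiL Q x lp ln w + (mu : ℝ) * vdet w ≤ _
    rw [h4]
    push_cast
    linarith
  · intro e he
    obtain ⟨a, ha, rfl, h2⟩ := hBe e he
    rw [h2, hdet a ha]
    exact (hq a ha).1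
  · intro e he
    obtain ⟨a, ha, rfl, h2⟩ := hBe e he
    rw [h2, hdet a ha]
    exact (hq a ha).2.1
  · intro e he v hv64 hA hk
    obtain ⟨a, ha, rfl, -⟩ := hBe e he
    refine explicit hw hn hvB hval hlam ?_ ha hv64 hA hk
    intro a' ha' k hk8 hk3
    rw [hdet a' ha']
    exact ((hq a' ha').2.2 k hk8).resolve_left (by omega)
  · intro N' W' h2 h3 h4
    have h5 := PhiL_total_dissection (lp := lp) (ln := ln) h.hQ (h.le hlp) (h4 rfl)
    have h6 := vol_le h2 h3
    have h7 := mul_le_mul_of_nonneg_left h5 hlamR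
    have h8 := mul_le_mul_of_nonneg_left h6 hmuR
    show _ ≤ ∑ s, ((lam : ℝ) * PhiL Q x lp ln (W' s) + (mu : ℝ) * vdet (W' s))
    rw [Finset.sum_add_distrib, ← Finset.mul_sum, ← Finset.mul_sum]
    push_cast
    push_cast at h7
    linarith

/-- **dissections in dimension `7 + i`** -/
theorem boundX (h : Base6 Q g G x ev D) (hX : ExtD Q g G x ev DX) (hM : LZX EC M off lp ln D)
    (hlp : kindB (G * g) 0 (fun o => ev (o / g) (o % g)) lp = true)
    (hln : kindB (G * g) 1 (fun o => ev (o / g) (o % g)) ln = true) {t : ℕ} (ht : t ≤ 6)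
    (hti : t = i + 1) (hb : Helper67.BS.baseZ VV c M off lam mu 6 t)
    (hs : ∀ j < t, stepQ VV c j (5+t-j))
    (hEC : ∀ e ∈ EC, ∃ a < nE, e = cd a) (hn : nE ≤ DX.length)
    (hw : witB cd wt nE DX.length = true) (hdl : detB cd dl nE = true)
    (hvB : valB cd wt vl TH nE = true) (hvC : valC cd vl off lp ln DX 0 = true)
    (hq : excQ nE dl vl TH off lam mu c i) {B : ℕ} (hB : (B : ℚ) - 1 < omF c t
      (lam * (((46080 * totL lp : ℕ) : ℚ) - ((46080 * totL ln : ℕ) : ℚ)) + mu * 720)) {N : ℕ}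
    {W : Fin N → Fin (6+t+1) → Fin (6+t) → ℝ} (hW : IsDissection W) (hv : IsVertexFamily W) :
    B ≤ N := by
  subst hti
  have hsi : stepQ VV c i 6 := by
    have := hs i (by omega)
    rwa [show 5 + (i+1) - i = 6 by omega] at this
  have h1 := levX h hX hM hlp hln hb hsi hEC hn hw hdl hvB hvC hq
  have h2 := chain ht hs i (by omega) _ 7 (by omega) h1
  have h3 := h2.target hW.1 hv (fun _ => hW)
  have h4 : omF c (i+1) (lam * (((46080 * totL lp : ℕ) : ℚ) - ((46080 * totL ln : ℕ) : ℚ)) +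
      mu * 720) ≤ (N : ℚ) := by
    have e1 : omF c (i+1) (lam * (((46080 * totL lp : ℕ) : ℚ) - ((46080 * totL ln : ℕ) : ℚ)) +
      mu * 720) = omA c (i+1) i (c i * 5040 + 14 *
        (lam * (((46080 * totL lp : ℕ) : ℚ) - ((46080 * totL ln : ℕ) : ℚ)) + mu * 720)) := by
      have e2 : 6 + (i+1) - i = 7 := by omega
      unfold omF
      rw [omA, e2]
      norm_num [Nat.factorial]
    rw [e1]
    exact_mod_cast h3
  have h5 : (B : ℚ) < (N : ℚ) + 1 := by linarith
  have h6 : B < N + 1 := by exact_mod_cast h5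
  omega

end level

end Helper63.Cube8
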