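import Pool.Agent.Helper67.BS.Chain
import Pool.Agent.Helper41.NF
import Pool.Agent.Helper63.Cube8.Facets
import Pool.Agent.Helper67.Cube8.Exc

/-!
# The step from the 6-cube to the 7-cube with exceptional classes
-/

set_option autoImplicit false

namespace Helper63.Cube8

open Helper67.Cube Helper67.BS Helper67.Cube18 Helper67.Cube8 Helper63.Cube7
open Helper67.Cube6 (vc)

/-- **The step with exceptional classes.** `Φ` is the weight of the simplices of the 6-cube, `Be`
bounds it on the exceptional classes `EC`. -/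
theorem stepX {dis : Bool} {V : ℕ → ℕ} {c : ℕ → ℚ} {i : ℕ} {Om : ℚ}
    {Φ : (Fin 7 → Fin 6 → ℝ) → ℝ} (hΦ : Inv6 Φ) {EC : List ℕ} {Be : ℕ → ℚ}
    (hV : ∀ i ≤ 7, maxDet i ≤ V i) (hVm : ∀ i < 7, V i ≤ V (i+1))
    (hs : stepQ V c i 6)
    (h0 : ∀ w : Fin 7 → Fin 6 → ℝ, AffineIndependent ℝ w → (∀ i j, w i j = 0 ∨ w i j = 1) →
      Φ w ≤ psiQ c (i+1) (ndet w) (kk w) ∨ ∃ e ∈ EC, cls w e)
    (hE : ∀ e ∈ EC, ∀ w : Fin 7 → Fin 6 → ℝ, AffineIndependent ℝ w → cls w e → Φ w ≤ Be e)
    (hE1 : ∀ e ∈ EC, Be e + c i * Helper63.Cube7.detE e ≤ aQ i 1 -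
      Helper63.Cube7.detE e * bQ c i 1)
    (hE2 : ∀ e ∈ EC, 2 * Be e + c i * Helper63.Cube7.detE e ≤ aQ i 2 -
      Helper63.Cube7.detE e * bQ c i 2)
    (hE3 : ∀ e ∈ EC, ∀ v < 64, AffineIndependent ℝ (sv e v) → 3 ≤ kk (sv e v) →
      (c i : ℝ) * vdet (sv e v) + ∑ j, (fphi Φ (sv e v) j 0 + fphi Φ (sv e v) j 1) ≤
        psiQ c i (ndet (sv e v)) (kk (sv e v)))
    (hT : ∀ (N' : ℕ) (W' : Fin N' → Fin 7 → Fin 6 → ℝ), IsCover W' → IsVertexFamily W' →
      (dis = true → IsDissection W') → (Om : ℝ) ≤ ∑ s, Φ (W' s)) :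
    LevP dis c 7 i (c i * 5040 + 14 * Om) := by
  classical
  obtain ⟨V', hV', hVm', hVe⟩ := exists_V hV hVm
  obtain ⟨hc, hs0, hs1⟩ := hs
  intro N W hW hv hd
  have h1 := lift_gen (m := 6) hW hv (Φ := Φ) (Ψ := fun w => psiQ c i (ndet w) (kk w))
    (c := ((c i : ℚ) : ℝ)) (Om := (Om : ℝ)) (by exact_mod_cast hc) ?_ ?_
  · refine le_trans (le_of_eq ?_) h1
    push_cast
    norm_num [Nat.factorial]
  · intro w hw hb
    have hB : ∀ δ k n : ℕ, 1 ≤ δ → δ ≤ V' (6 - n) → 1 ≤ k → k ≤ n + 1 → n ≤ 6 →
        ((c i : ℚ) : ℝ) * δ + k * psiQ c (i+1) δ n ≤ psiQ c i δ k := by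
      intro δ k n hδ1 hδ2 hk1 hk2 hn
      rw [hVe _ (by omega)] at hδ2
      have h2 := (hs1 n (by omega) k (by omega)).resolve_left (by omega)
      have h3 : (0:ℚ) ≤ (aQ i k - k * aQ (i+1) n) -
          δ * (c i + bQ c i k - k * bQ c (i+1) n) := by
        refine lin_le (v := (V (6-n) : ℚ)) (by linarith [h2.1]) ?_ (Nat.cast_nonneg _)
          (by exact_mod_cast hδ2)
        have := h2.2
        linarith
      have h4 : (c i : ℚ) * δ + k * (aQ (i+1) n - δ * bQ c (i+1) n) ≤ aQ i k - δ * bQ c i k := by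
        linarith
      unfold psiQ
      exact_mod_cast h4
    have hB0 : ∀ δ : ℕ, 1 ≤ δ → δ ≤ V' 7 → ((c i : ℚ) : ℝ) * δ ≤ psiQ c i δ 0 := by
      intro δ hδ1 hδ2
      rw [hVe _ le_rfl] at hδ2
      have ha : (0:ℚ) ≤ aQ i 0 := by
        have : ∀ i n, (0:ℚ) ≤ aQ i n := by
          intro i
          induction i with
          | zero => intro n; simp [aQ]
          | succ i ih => intro n; rw [aQ]; exact div_nonneg (ih _) (by positivity)
        exact this i 0
      have h3 : (0:ℚ) ≤ aQ i 0 - δ * (c i + bQ c i 0) := by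
        refine lin_le (v := (V 7 : ℚ)) ha ?_ (Nat.cast_nonneg _) (by exact_mod_cast hδ2)
        have : c i * (V 7 : ℚ) ≤ aQ i 0 - (V 7 : ℚ) * bQ c i 0 := hs0
        linarith
      have h4 : (c i : ℚ) * δ ≤ aQ i 0 - δ * bQ c i 0 := by linarith
      unfold psiQ
      exact_mod_cast h4
    have hn1 := one_le_ndet hw hb
    have hn2 := ndet_cast hb
    by_cases hX : 3 ≤ kk w ∧ ∃ (j : Fin 7) (a : ℝ) (_ : a = 0 ∨ a = 1) (hE' : ExtAt w j a),
        ∃ e ∈ EC, cls (rem w hE'.choose j) e
    · obtain ⟨hk3, j, a, ha, hE', e, he, hcl⟩ := hX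
      obtain ⟨v, hv64, hA, hvd, hkk, hsum⟩ := Helper41.NF.nf hw hb ha hE'.choose_spec hcl
      have h2 := hE3 e he v hv64 hA (by rw [← hkk]; exact hk3)
      have h3 : ndet w = ndet (sv e v) := by
        unfold ndet
        rw [hvd]
      beta_reduce
      rw [hsum Φ hΦ, hvd, hkk, h3]
      exact h2
    · have h3 : ∑ j, (fphi Φ w j 0 + fphi Φ w j 1) ≤
          psiQ c i (ndet w) (kk w) - ((c i : ℚ) : ℝ) * vdet w := by
        refine sum_fphi_le' (by norm_num) (fun j a ha hE' => ?_) (fun h00 => ?_)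
        · unfold fphi
          rw [dif_pos hE']
          have hT1 := aff_rem hw hE'.choose_spec
          have hT2 : ∀ i' j', rem w hE'.choose j i' j' = 0 ∨ rem w hE'.choose j i' j' = 1 :=
            fun _ _ => hb _ _
          have h4 : ndet (rem w hE'.choose j) = ndet w := by
            unfold ndet
            rw [vdet_eq_rem hw hb ha hE'.choose_spec]
          have h5 : ndet w ≤ V' (6 - kk (rem w hE'.choose j)) := by
            rw [← h4]
            exact ndet_le hV' hVm' hT2
          have h6 : 1 ≤ kk w := by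
            unfold kk
            refine Finset.card_pos.2 ⟨j, Finset.mem_filter.2 ⟨Finset.mem_univ _, a, ha, hE'⟩⟩
          rcases h0 _ hT1 hT2 with h7 | ⟨e, he, hcl⟩
          · have h8 := hB (ndet w) (kk w) (kk (rem w hE'.choose j)) hn1 h5 h6 (kk_rem _ _ _)
              (kk_le _)
            rw [hn2] at h8
            rw [h4] at h7
            have h9 := mul_le_mul_of_nonneg_left h7 (Nat.cast_nonneg (α := ℝ) (kk w))
            linarith
          · have h7 : kk w < 3 := by
              by_contra hcon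
              exact hX ⟨by omega, j, a, ha, hE', e, he, hcl⟩
            have h8 := hE e he _ hT1 hcl
            obtain ⟨g, hg⟩ := hcl
            have h9 : vdet w = (Helper63.Cube7.detE e : ℕ) := by
              rw [← vdet_eq_rem hw hb ha hE'.choose_spec]
              exact (detE_kkE hT1 hg).1
            have h10 : ndet w = Helper63.Cube7.detE e := by
              have : (ndet w : ℝ) = (Helper63.Cube7.detE e : ℕ) := by rw [hn2, h9]
              exact_mod_cast this
            have hk : kk w = 1 ∨ kk w = 2 := by omega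
            rcases hk with hk | hk
            · have h11 := hE1 e he
              have h12 : ((Be e : ℚ) : ℝ) + (c i : ℚ) * (Helper63.Cube7.detE e : ℕ) ≤
                  psiQ c i (Helper63.Cube7.detE e) 1 := by
                unfold psiQ
                exact_mod_cast h11
              rw [hk, h9, h10]
              push_cast
              linarith
            · have h11 := hE2 e he
              have h12 : 2 * ((Be e : ℚ) : ℝ) + (c i : ℚ) * (Helper63.Cube7.detE e : ℕ) ≤
                  psiQ c i (Helper63.Cube7.detE e) 2 := by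
                unfold psiQ
                exact_mod_cast h11
              rw [hk, h9, h10]
              push_cast
              linarith
        · have h4 : ndet w ≤ V' 7 := by
            have := ndet_le hV' hVm' hb
            rw [h00] at this
            exact this
          have h5 := hB0 (ndet w) hn1 h4
          rw [hn2] at h5
          rw [h00]
          linarith
      beta_reduce
      linarith
  · intro N' W' h2 h3 h4
    exact hT N' W' h2 h3 fun hdis => h4 (hd hdis)

end Helper63.Cube8
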